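import Pool.Agent.N784.CZ.G.Stm

/-!
# The degree of the ray class field

Project CZ, part G5.
-/

set_option autoImplicit false

open NumberField IsDedekindDomain Complex

namespace Pool.Agent.N134.CZ

open Pool.Agent.Y773 (TPos)
open Pool.Agent.Y767 (Mq Mq_cancel Cls cls cls_pi cls_of_mul cls_eq_one)
open Pool.Agent.N784.AD (pi1 pi1_coe T1 exists_compl exists_rep cls_card_le)
open Pool.Agent.N784.CZ

section

variable {M : Type} [Field M] [NumberField M] {𝔮 : Ideal (𝓞 M)} {K : Type} [Field K]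
  [NumberField K] {ι : 𝓞 M →+* 𝓞 K} {art : Ideal (𝓞 M) → (𝓞 K ≃+* 𝓞 K)}

theorem art_one (h : IsRCF 𝔮 K ι art) : art 1 = 1 := by
  have h1 := h.mul 1 1 isCoprime_one_left isCoprime_one_left
  rw [mul_one] at h1
  exact (mul_eq_left.1 h1.symm)

theorem art_cls (htop : 𝔮 ≠ ⊤) (h : IsRCF 𝔮 K ι art) (𝔞 : Mq 𝔮) :
    art (𝔞 : Ideal (𝓞 M)) = 1 ↔ cls (pi1 htop) 𝔞 = 1 := by
  rw [h.kernel _ 𝔞.2]
  constructor
  · rintro ⟨a, b, ha, hb, hpa, hpb, hab⟩
    rw [← map_one (cls (pi1 htop))]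
    refine cls_of_mul (π := pi1 htop) (a := ⟨a, ha, hpa⟩) (b := ⟨b, hb, hpb⟩) ?_
    apply Subtype.ext
    rw [Submonoid.coe_mul, Submonoid.coe_mul, pi1_coe, pi1_coe, Submonoid.coe_one, mul_one]
    exact hab
  · intro h1
    have := Mq_cancel htop
    obtain ⟨a, b, hab⟩ := cls_eq_one h1
    refine ⟨a, b, a.2.1, b.2.1, a.2.2, b.2.2, ?_⟩
    have := congrArg (fun x : Mq 𝔮 => (x : Ideal (𝓞 M))) hab
    simp only [Submonoid.coe_mul, pi1_coe] at this
    exact this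

theorem art_eq (hbot : 𝔮 ≠ ⊥) (htop : 𝔮 ≠ ⊤) (h : IsRCF 𝔮 K ι art) {𝔞 𝔟 : Mq 𝔮}
    (hc : cls (pi1 htop) 𝔞 = cls (pi1 htop) 𝔟) :
    art (𝔞 : Ideal (𝓞 M)) = art (𝔟 : Ideal (𝓞 M)) := by
  obtain ⟨-, 𝔠, -, -, -, h1⟩ := exists_compl hbot htop 𝔟
  have h2 : cls (pi1 htop) (𝔟 * 𝔠) = 1 := by rw [map_mul, h1]
  have h3 : cls (pi1 htop) (𝔞 * 𝔠) = 1 := by rw [map_mul, hc, h1]
  have h4 := (art_cls htop h _).2 h2
  have h5 := (art_cls htop h _).2 h3
  rw [Submonoid.coe_mul, h.mul _ _ 𝔟.2 𝔠.2] at h4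
  rw [Submonoid.coe_mul, h.mul _ _ 𝔞.2 𝔠.2] at h5
  exact mul_right_cancel (h5.trans h4.symm)

end

/-- **The degree of the ray class field.** -/
theorem t_deg : StDeg := by
  intro M _ _ 𝔮 hbot htop K _ _ ι art h
  obtain ⟨hfin, -⟩ := cls_card_le hbot htop
  choose rep hrep using exists_rep hbot htop
  let Ψ : Cls (pi1 htop) →* (𝓞 K ≃+* 𝓞 K) :=
    { toFun := fun c => art (rep c)
      map_one' := by
        rw [art_cls htop h, hrep]
      map_mul' := fun c c' => by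
        rw [← h.mul _ _ (rep c).2 (rep c').2, ← Submonoid.coe_mul]
        exact art_eq hbot htop h (by rw [hrep, map_mul, hrep, hrep]) }
  have hΨ : ∀ c, Ψ c = art (rep c) := fun c => rfl
  have hΨi : Function.Injective Ψ := by
    rw [injective_iff_map_eq_one]
    intro c hc
    rw [hΨ, art_cls htop h, hrep] at hc
    exact hc
  have hfix : ∀ (c : Cls (pi1 htop)) (x : 𝓞 M), Ψ c (ι x) = ι x := fun c x =>
    (h.invariants (ι x)).2 ⟨x, rfl⟩ _ (rep c).2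
  have hinv : ∀ x : 𝓞 K, (∀ c, Ψ c x = x) → ∃ y, ι y = x := by
    intro x hx
    refine (h.invariants x).1 fun 𝔞 h𝔞 => ?_
    have h1 : art 𝔞 = Ψ (cls (pi1 htop) ⟨𝔞, h𝔞⟩) := by
      rw [hΨ]
      exact art_eq hbot htop h (𝔞 := ⟨𝔞, h𝔞⟩) (hrep _).symm
    rw [h1]
    exact hx _
  -- the field embedding
  have hιi : Function.Injective ι := by
    rw [RingHom.injective_iff_ker_eq_bot]
    by_contra hk
    have h1 : ((Ideal.absNorm (RingHom.ker ι) : ℕ) : 𝓞 M) ∈ RingHom.ker ι :=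
      Ideal.absNorm_mem _
    rw [RingHom.mem_ker, map_natCast, Nat.cast_eq_zero, Ideal.absNorm_eq_zero_iff] at h1
    exact hk h1
  have hinj : Function.Injective ((algebraMap (𝓞 K) K).comp ι) :=
    (IsFractionRing.injective (𝓞 K) K).comp hιi
  let : Algebra M K := (IsFractionRing.lift (K := M) hinj).toAlgebra
  have halg : ∀ x : 𝓞 M, algebraMap (𝓞 M) (𝓞 K) x = ι x := by
    intro x
    apply IsFractionRing.injective (𝓞 K) K
    rw [← IsScalarTower.algebraMap_apply (𝓞 M) (𝓞 K) K, IsScalarTower.algebraMap_apply (𝓞 M) M K]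
    exact IsFractionRing.lift_algebraMap hinj x
  let : MulSemiringAction (Cls (pi1 htop)) (𝓞 K) := MulSemiringAction.compHom (𝓞 K) Ψ
  have hsm : ∀ (c : Cls (pi1 htop)) (x : 𝓞 K), c • x = Ψ c x := fun c x => rfl
  have hG : IsGaloisGroup (Cls (pi1 htop)) (𝓞 M) (𝓞 K) :=
    { faithful := ⟨fun {c c'} hcc => hΨi (RingEquiv.ext fun x => hcc x)⟩
      commutes := ⟨fun c a b => by
        rw [Algebra.smul_def, Algebra.smul_def, hsm, hsm, map_mul, halg, hfix]⟩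
      isInvariant := ⟨fun b hb => by
        obtain ⟨y, hy⟩ := hinv b hb
        exact ⟨y, by rw [halg, hy]⟩⟩ }
  have h1 := IsGaloisGroup.card_eq_finrank' (Cls (pi1 htop)) (𝓞 M) (𝓞 K)
  rw [h1, ← IsFractionRing.finrank_eq (𝓞 M) M (𝓞 K) K, Module.finrank_mul_finrank]

end Pool.Agent.N134.CZ
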